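import Pool.Agent.helper62.QU.Spec

/-! Row qu:FI1: quantum unique ergodicity for the eigensections of strongly convergent flat bundles. -/

set_option autoImplicit false

open scoped MatrixGroups ContDiff Topology UpperHalfPlane
open UpperHalfPlane MeasureTheory Filter Set

namespace Pool.Agent.QU

/-- continuous functions are integrable on a nice fundamental domain -/
theorem FI1_int {Γ : Subgroup SL(2, ℝ)} {F : Set ℍ} (hF : NiceDom Γ F) {f : ℍ → ℝ}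
    (hf : Continuous f) : IntegrableOn f F := by
  obtain ⟨K, hK, hFK⟩ := hF.rel
  exact (hf.continuousOn.integrableOn_compact hK).mono_set hFK

theorem FI1_lin {Γ : Subgroup SL(2, ℝ)} {F : Set ℍ} (hF : NiceDom Γ F) {f g : ℍ → ℝ}
    (hf : Continuous f) (hg : Continuous g) (a b : ℝ) :
    ∫ z in F, (a * f z + b * g z) = a * (∫ z in F, f z) + b * ∫ z in F, g z := by
  have h1 : IntegrableOn (fun z => a * f z) F := FI1_int hF (continuous_const.mul hf)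
  have h2 : IntegrableOn (fun z => b * g z) F := FI1_int hF (continuous_const.mul hg)
  rw [integral_add h1 h2, integral_const_mul, integral_const_mul]

theorem FI1_two : ((1 : ℕ) : WithTop ℕ∞) + 1 = 2 := by
  rw [Nat.cast_one, one_add_one_eq_two]

theorem FI1_cd1 (ca1 : CA1_stmt) {f : ℍ → ℝ} (hf : CD 2 f) : CD 1 f := by
  obtain ⟨-, c1, -⟩ := ca1 ℝ
  exact c1 f 1 2 (by norm_num) hf

theorem FI1_cdX (ca1 : CA1_stmt) {f : ℍ → ℝ} (hf : CD 2 f) : CD 1 (dX f) ∧ CD 1 (dY f) := by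
  obtain ⟨-, -, -, -, c4, -⟩ := ca1 ℝ
  have h := c4 f 1 (by rw [FI1_two]; exact hf)
  rw [Nat.cast_one] at h
  exact h

theorem FI1_lap_add (ca1 : CA1_stmt) (ca2 : CA2_stmt) {f g : ℍ → ℝ} (hf : CD 2 f) (hg : CD 2 g)
    (z : ℍ) : lap (fun z => f z + g z) z = lap f z + lap g z := by
  obtain ⟨-, -, c2, -, -, c5, -⟩ := ca1 ℝ
  have hfg : CD 2 (fun z => f z + g z) := c2 f g 2 hf hg
  rw [(ca2 ℝ _ hfg z).2, (ca2 ℝ _ hf z).2, (ca2 ℝ _ hg z).2]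
  have hX : dX (fun z => f z + g z) = fun z => dX f z + dX g z :=
    funext fun z => (c5 f g (FI1_cd1 ca1 hf) (FI1_cd1 ca1 hg) z).1
  have hY : dY (fun z => f z + g z) = fun z => dY f z + dY g z :=
    funext fun z => (c5 f g (FI1_cd1 ca1 hf) (FI1_cd1 ca1 hg) z).2
  rw [hX, hY, (c5 (dX f) (dX g) (FI1_cdX ca1 hf).1 (FI1_cdX ca1 hg).1 z).1,
    (c5 (dY f) (dY g) (FI1_cdX ca1 hf).2 (FI1_cdX ca1 hg).2 z).2]
  ring

theorem FI1_lap_smul (ca1 : CA1_stmt) (ca2 : CA2_stmt) (c : ℝ) {f : ℍ → ℝ} (hf : CD 2 f)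
    (z : ℍ) : CD 2 (fun z => c * f z) ∧ lap (fun z => c * f z) z = c * lap f z := by
  obtain ⟨-, -, -, c3, -, -, c6, c7, c8, -⟩ := ca1 ℝ
  have hc2 : CD 2 (fun _ : ℍ => c) := c8 c 2
  have hc1 : CD 1 (fun _ : ℍ => c) := c8 c 1
  have hcf : CD 2 (fun z => c * f z) := c3 (fun _ => c) f 2 hc2 hf
  refine ⟨hcf, ?_⟩
  have key : ∀ F : ℍ → ℝ, CD 1 F → dX (fun z => c * F z) = (fun z => c * dX F z) ∧
      dY (fun z => c * F z) = (fun z => c * dY F z) := by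
    intro F hF
    constructor
    · funext w
      have h := (c6 (fun _ => c) F hc1 hF w).1
      rw [(c7 c w).1] at h
      simpa using h
    · funext w
      have h := (c6 (fun _ => c) F hc1 hF w).2
      rw [(c7 c w).2] at h
      simpa using h
  rw [(ca2 ℝ _ hcf z).2, (ca2 ℝ _ hf z).2, (key f (FI1_cd1 ca1 hf)).1, (key f (FI1_cd1 ca1 hf)).2,
    (key _ (FI1_cdX ca1 hf).1).1, (key _ (FI1_cdX ca1 hf).2).2]
  ring

theorem FI1_lap_const (ca1 : CA1_stmt) (ca2 : CA2_stmt) (c : ℝ) (z : ℍ) :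
    lap (fun _ : ℍ => c) z = 0 := by
  obtain ⟨-, -, -, -, -, -, -, c7, c8, -⟩ := ca1 ℝ
  rw [(ca2 ℝ _ (c8 c 2) z).2]
  have hX : dX (fun _ : ℍ => c) = fun _ => 0 := funext fun w => (c7 c w).1
  have hY : dY (fun _ : ℍ => c) = fun _ => 0 := funext fun w => (c7 c w).2
  rw [hX, hY, (c7 0 z).1, (c7 0 z).2]
  ring

/-- finite sums -/
theorem FI1_sum (ca1 : CA1_stmt) (ca2 : CA2_stmt) {ι : Type} (s : Finset ι) (x : ι → ℝ)
    (f : ι → ℍ → ℝ) (hf : ∀ l, CD 2 (f l)) (hs : ∀ l, HasCompactSupport (f l)) :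
    CD 2 (fun v => ∑ l ∈ s, x l * f l v) ∧ HasCompactSupport (fun v => ∑ l ∈ s, x l * f l v) ∧
    ∀ z, lap (fun v => ∑ l ∈ s, x l * f l v) z = ∑ l ∈ s, x l * lap (f l) z := by
  classical
  induction s using Finset.induction_on with
  | empty =>
    obtain ⟨-, -, -, -, -, -, -, -, c8, -⟩ := ca1 ℝ
    simp only [Finset.sum_empty]
    exact ⟨c8 0 2, HasCompactSupport.zero, fun z => FI1_lap_const ca1 ca2 0 z⟩
  | insert a s ha ih =>
    obtain ⟨i1, i2, i3⟩ := ih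
    simp only [Finset.sum_insert ha]
    have h1 : ∀ z, CD 2 (fun z => x a * f a z) ∧ lap (fun z => x a * f a z) z = x a * lap (f a) z :=
      fun z => FI1_lap_smul ca1 ca2 (x a) (hf a) z
    have h2 : HasCompactSupport (fun z => x a * f a z) := (hs a).mul_left
    obtain ⟨-, -, c2, -⟩ := ca1 ℝ
    refine ⟨c2 _ _ 2 (h1 UpperHalfPlane.I).1 i1, h2.add i2, fun z => ?_⟩
    rw [FI1_lap_add ca1 ca2 (h1 z).1 i1 z, (h1 z).2, i3 z]

/-- the difference of kernels -/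
theorem FI1_pker {Γ : Subgroup SL(2, ℝ)} {a₁ a₂ : ℍ → ℍ → ℝ} (h₁ : PKer Γ a₁) (h₂ : PKer Γ a₂)
    (C : ℝ) : PKer Γ (fun z w => a₁ z w - C * a₂ z w) := by
  obtain ⟨R₁, hR₁⟩ := h₁.prop
  obtain ⟨R₂, hR₂⟩ := h₂.prop
  refine ⟨?_, ?_, ?_, ⟨max R₁ R₂, ?_⟩⟩
  · have e : Function.uncurry (fun z w => a₁ z w - C * a₂ z w)
        = fun p => Function.uncurry a₁ p - C * Function.uncurry a₂ p := rfl
    rw [e]
    exact h₁.cont.sub (continuous_const.mul h₂.cont)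
  · intro z w
    rw [h₁.symm z w, h₂.symm z w]
  · intro γ z w
    rw [h₁.inv γ z w, h₂.inv γ z w]
  · intro z w h
    by_cases h1 : a₁ z w = 0
    · have h2 : a₂ z w ≠ 0 := by
        intro h2
        apply h
        rw [h1, h2]
        ring
      exact (hR₂ z w h2).trans (le_max_right _ _)
    · exact (hR₁ z w h1).trans (le_max_left _ _)

/-- integrals against a kernel of finite propagation -/
theorem FI1_ker {Γ : Subgroup SL(2, ℝ)} {a : ℍ → ℍ → ℝ} (h : PKer Γ a) {G : ℍ → ℍ → ℝ}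
    (hG : Continuous (Function.uncurry G)) :
    (∀ z, Integrable (fun w => a z w * G z w)) ∧ Continuous (fun z => ∫ w : ℍ, a z w * G z w) := by
  obtain ⟨R, hR⟩ := h.prop
  have hc : Continuous (Function.uncurry fun z w => a z w * G z w) := h.cont.mul hG
  have hz : ∀ z w, w ∉ Metric.closedBall z R → a z w * G z w = 0 := by
    intro z w hw
    have : a z w = 0 := by
      by_contra h0
      apply hw
      rw [Metric.mem_closedBall, dist_comm]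
      exact hR z w h0
    rw [this, zero_mul]
  constructor
  · intro z
    have hcz : Continuous fun w => a z w * G z w := hc.comp (Continuous.prodMk_right z)
    apply hcz.integrable_of_hasCompactSupport
    exact HasCompactSupport.intro (isCompact_closedBall z R) (fun w hw => hz z w hw)
  · rw [continuous_iff_continuousAt]
    intro z₀
    have hk : IsCompact (Metric.closedBall z₀ (R + 1)) := isCompact_closedBall _ _
    have hcon : ContinuousOn (fun z => ∫ w : ℍ, a z w * G z w) (Metric.ball z₀ 1) := by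
      apply continuousOn_integral_of_compact_support hk (hc.continuousOn)
      intro z w hzb hw
      apply hz
      intro hw2
      apply hw
      rw [Metric.mem_closedBall] at hw2 ⊢
      rw [Metric.mem_ball] at hzb
      have := dist_triangle w z z₀
      linarith
    exact hcon.continuousAt (Metric.ball_mem_nhds z₀ one_pos)

/-- the form of the kernel is nonpositive -/
theorem FI1_nsd (ca1 : CA1_stmt) (ca2 : CA2_stmt) (lak : LAK_stmt) (ker : KER_stmt)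
    {Γ : Subgroup SL(2, ℝ)} {F : Set ℍ} (hΓ : SurfaceGroup Γ) (hF : NiceDom Γ F) {g : ℍ → ℝ}
    (hg : Inv Γ g) (δ C μ₀ : ℝ) (κ : ℝ → ℝ) (hκ : RK κ)
    (hkli : ∀ u : ℍ → ℝ, CD 2 u → HasCompactSupport u → ∫ z : ℍ, g z * u z ^ 2 ≤
      δ * (∫ z : ℍ, u z ^ 2) + C * ∫ z : ℍ, (lap u z - μ₀ * u z) ^ 2) :
    NSD (fun z w => aK (fun z => g z - δ) κ z w
      - C * aK (fun _ => 1) (fun t => 1 * LL κ t + (-μ₀) * κ t) z w) := by
  obtain ⟨l1, l2, l3, l4, l5⟩ := lak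
  have hκ' : RK (fun t => 1 * LL κ t + (-μ₀) * κ t) := l5 _ _ 1 (-μ₀) (l4 κ hκ) hκ
  have hgδ : Inv Γ (fun z => g z - δ) := by
    refine ⟨hg.1.sub continuous_const, fun γ z => ?_⟩
    simp only
    rw [hg.2]
  have h1 : Inv Γ (fun _ => (1 : ℝ)) := ⟨continuous_const, fun γ z => rfl⟩
  intro m q x
  have e1 := (ker Γ F _ κ hΓ hF hgδ hκ).2.1 m q x
  have e2 := (ker Γ F _ _ hΓ hF h1 hκ').2.1 m q x
  set u : ℍ → ℝ := fun v => ∑ l, x l * κ (tt v (q l)) with hu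
  have hsm : ContDiff ℝ 2 κ := by
    have := contDiff_infty.1 hκ.smooth 2
    exact_mod_cast this
  obtain ⟨u1, u2, u3⟩ := FI1_sum ca1 ca2 Finset.univ x (fun l v => κ (tt v (q l)))
    (fun l => l1 κ 2 (q l) hsm) (fun l => l3 κ (q l) hκ)
  have hcu : Continuous u := by
    obtain ⟨c0, c1, -⟩ := ca1 ℝ
    exact (c0 u).1 (c1 u 0 2 (by norm_num) u1)
  have hku := hkli u u1 u2
  have hlap : ∀ v, ∑ l, x l * (1 * LL κ (tt v (q l)) + (-μ₀) * κ (tt v (q l)))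
      = lap u v - μ₀ * u v := by
    intro v
    have h3 := u3 v
    have h3' : lap u v = ∑ l, x l * LL κ (tt v (q l)) := by
      rw [hu, h3]
      refine Finset.sum_congr rfl fun l _ => ?_
      rw [l2 κ (q l) v hsm]
    rw [h3', hu]
    simp only [Finset.mul_sum]
    rw [← Finset.sum_sub_distrib]
    refine Finset.sum_congr rfl fun l _ => ?_
    ring
  have e3 : ∑ l, ∑ l', x l * x l' * (aK (fun z => g z - δ) κ (q l) (q l')
      - C * aK (fun _ => 1) (fun t => 1 * LL κ t + (-μ₀) * κ t) (q l) (q l'))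
      = (∑ l, ∑ l', x l * x l' * aK (fun z => g z - δ) κ (q l) (q l'))
      - C * ∑ l, ∑ l', x l * x l' * aK (fun _ => 1) (fun t => 1 * LL κ t + (-μ₀) * κ t) (q l) (q l') := by
    rw [Finset.mul_sum, ← Finset.sum_sub_distrib]
    refine Finset.sum_congr rfl fun l _ => ?_
    rw [Finset.mul_sum, ← Finset.sum_sub_distrib]
    refine Finset.sum_congr rfl fun l' _ => ?_
    ring
  show ∑ l, ∑ l', x l * x l' * (aK (fun z => g z - δ) κ (q l) (q l')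
      - C * aK (fun _ => 1) (fun t => 1 * LL κ t + (-μ₀) * κ t) (q l) (q l')) ≤ 0
  rw [e3, e1, e2]
  have e4 : ∫ v : ℍ, (fun _ => (1 : ℝ)) v *
      (∑ l, x l * (fun t => 1 * LL κ t + (-μ₀) * κ t) (tt v (q l))) ^ 2
      = ∫ z : ℍ, (lap u z - μ₀ * u z) ^ 2 := by
    congr 1
    funext v
    simp only [one_mul]
    have := hlap v
    simp only [one_mul] at this
    rw [this]
  have hs2 : HasCompactSupport (fun z => u z ^ 2) := by
    have : (fun z => u z ^ 2) = fun z => u z * u z := by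
      funext z
      ring
    rw [this]
    exact u2.mul_left
  have i1 : Integrable (fun z => g z * u z ^ 2) :=
    (hg.1.mul (hcu.pow 2)).integrable_of_hasCompactSupport hs2.mul_left
  have i2 : Integrable (fun z => δ * u z ^ 2) :=
    (continuous_const.mul (hcu.pow 2)).integrable_of_hasCompactSupport hs2.mul_left
  have e5 : ∫ v : ℍ, (fun z => g z - δ) v * (∑ l, x l * κ (tt v (q l))) ^ 2
      = (∫ z : ℍ, g z * u z ^ 2) - δ * ∫ z : ℍ, u z ^ 2 := by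
    rw [← integral_const_mul, ← integral_sub i1 i2]
    congr 1
    funext v
    simp only
    ring
  rw [e4, e5]
  linarith

/-- the pointwise inequalities -/
theorem FI1_pt {V : Type} [NormedAddCommGroup V] (p q : V) (g m δ : ℝ) (hδ : 0 < δ)
    (hm : |g| ≤ m) : ‖q‖ ^ 2 ≤ (1 + δ) * ‖p‖ ^ 2 + (1 + 1 / δ) * ‖q - p‖ ^ 2 ∧
    g * ‖p‖ ^ 2 ≤ g * ‖q‖ ^ 2 + m * (δ * ‖p‖ ^ 2 + (1 + 1 / δ) * ‖q - p‖ ^ 2) := by
  have h1 : ‖q‖ ≤ ‖p‖ + ‖q - p‖ := by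
    have := norm_add_le p (q - p)
    rwa [add_sub_cancel] at this
  have h2 : ‖p‖ ≤ ‖q‖ + ‖q - p‖ := by
    have := norm_sub_le q (q - p)
    rwa [sub_sub_cancel] at this
  have hp := norm_nonneg p
  have hq := norm_nonneg q
  have hd := norm_nonneg (q - p)
  have hm0 : 0 ≤ m := (abs_nonneg g).trans hm
  set P := ‖p‖
  set Q := ‖q‖
  set D := ‖q - p‖
  have hy : 2 * P * D ≤ δ * P ^ 2 + 1 / δ * D ^ 2 := by
    have h3 : 0 ≤ (δ * P - D) ^ 2 / δ := div_nonneg (sq_nonneg _) hδ.le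
    have h4 : (δ * P - D) ^ 2 / δ = δ * P ^ 2 - 2 * P * D + 1 / δ * D ^ 2 := by
      field_simp
      ring
    linarith
  have h5 : |Q ^ 2 - P ^ 2| ≤ δ * P ^ 2 + (1 + 1 / δ) * D ^ 2 := by
    have e : Q ^ 2 - P ^ 2 = (Q - P) * (Q + P) := by ring
    rw [e, abs_mul, abs_of_nonneg (by linarith : 0 ≤ Q + P)]
    have h6 : |Q - P| ≤ D := abs_le.2 ⟨by linarith, by linarith⟩
    have h7 : |Q - P| * (Q + P) ≤ D * (2 * P + D) :=
      mul_le_mul h6 (by linarith) (by linarith) hd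
    nlinarith
  constructor
  · have := (abs_le.1 h5).2
    nlinarith
  · have h8 : g * (P ^ 2 - Q ^ 2) ≤ m * |Q ^ 2 - P ^ 2| := by
      have h9 : g * (P ^ 2 - Q ^ 2) ≤ |g * (P ^ 2 - Q ^ 2)| := le_abs_self _
      rw [abs_mul, abs_sub_comm] at h9
      exact h9.trans (mul_le_mul_of_nonneg_right hm (abs_nonneg _))
    have h10 : m * |Q ^ 2 - P ^ 2| ≤ m * (δ * P ^ 2 + (1 + 1 / δ) * D ^ 2) :=
      mul_le_mul_of_nonneg_left h5 hm0
    linarith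

/-- the local estimate: eigenvalues near `μ₀` -/
theorem FI1_loc (ca1 : CA1_stmt) (ca2 : CA2_stmt) (lak : LAK_stmt) (cvb : CVB_stmt)
    (com : COM_stmt) (ker : KER_stmt) (trf : TRF_stmt) (eig : EIG_stmt)
    {Γ : Subgroup SL(2, ℝ)} {F : Set ℍ} (hΓ : SurfaceGroup Γ) (hF : NiceDom Γ F)
    (V : ℕ → Type) [∀ n, NormedAddCommGroup (V n)] [∀ n, InnerProductSpace ℂ (V n)]
    [∀ n, CompleteSpace (V n)] (ρ : ∀ n, Γ →* (V n ≃ₗᵢ[ℂ] V n)) (hst : Strong V ρ) {g : ℍ → ℝ}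
    (hg : Inv Γ g) (m : ℝ) (hm : ∀ z, |g z| ≤ m) (b δ C μ₀ η τ : ℝ) (hδ : 0 < δ) (hC : 0 ≤ C)
    (fam : ℝ → ℝ → ℝ) (hfam : Fam fam) (hη : 0 < η) (hbη : b * η / 2 ≤ δ) (hτ : C * τ ^ 2 ≤ δ)
    (hkli : ∀ u : ℍ → ℝ, CD 2 u → HasCompactSupport u → ∫ z : ℍ, g z * u z ^ 2 ≤
      δ * (∫ z : ℍ, u z ^ 2) + C * ∫ z : ℍ, (lap u z - μ₀ * u z) ^ 2) :
    ∀ᶠ n in atTop, ∀ (μ : ℝ) (φ : ℍ → V n), |μ - μ₀| ≤ τ → 0 ≤ μ → μ ≤ b → CD 2 φ →
      (∀ (γ : Γ) (z : ℍ), φ (γ • z) = ρ n γ (φ z)) → (∀ z, lap φ z = μ • φ z) →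
      (∫ z in F, g z * ‖φ z‖ ^ 2) ≤
        (2 * δ * (1 + δ) ^ 2 + δ + m * (2 * δ + δ ^ 2)) * ∫ z in F, ‖φ z‖ ^ 2 := by
  have hκ := hfam.rk η hη
  have hnsd := FI1_nsd ca1 ca2 lak ker hΓ hF hg δ C μ₀ (fam η) hκ hkli
  obtain ⟨-, -, -, l4, l5⟩ := lak
  set κ := fam η with hκd
  set κt : ℝ → ℝ := fun t => 1 * LL κ t + (-μ₀) * κ t with hκt
  have hκ' : RK κt := l5 _ _ 1 (-μ₀) (l4 κ hκ) hκ
  have hgδ : Inv Γ (fun z => g z - δ) := by
    refine ⟨hg.1.sub continuous_const, fun γ z => ?_⟩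
    simp only
    rw [hg.2]
  have h1 : Inv Γ (fun _ => (1 : ℝ)) := ⟨continuous_const, fun γ z => rfl⟩
  obtain ⟨p1, -, r1⟩ := ker Γ F _ κ hΓ hF hgδ hκ
  obtain ⟨p2, -, r2⟩ := ker Γ F _ κt hΓ hF h1 hκ'
  have hpk := FI1_pker p1 p2 C
  filter_upwards [trf Γ F _ hΓ hF hpk hnsd V ρ hst δ hδ] with n hn μ φ hμ hμ0 hμb hφ heq hlap
  have hφc : Continuous φ := by
    obtain ⟨c0, c1, -⟩ := ca1 (V n)
    exact (c0 φ).1 (c1 φ 0 2 (by norm_num) hφ)
  obtain ⟨v1, v2, v3, v4, v5, v6, v7, v8⟩ := cvb (V n)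
  have hQc : Continuous (conv κ φ) := v6 κ φ hκ hφc
  -- the kernel inequality
  have hG : Continuous (Function.uncurry fun z w : ℍ => (inner ℂ (φ z) (φ w)).re) := by
    have : (Function.uncurry fun z w : ℍ => (inner ℂ (φ z) (φ w)).re)
        = fun p : ℍ × ℍ => (inner ℂ (φ p.1) (φ p.2)).re := rfl
    rw [this]
    exact Complex.continuous_re.comp ((hφc.comp continuous_fst).inner (hφc.comp continuous_snd))
  obtain ⟨k1, k2⟩ := FI1_ker p1 hG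
  obtain ⟨k3, k4⟩ := FI1_ker p2 hG
  have hn' := hn φ hφc heq
  have hsplit : (∫ z in F, ∫ w : ℍ, (aK (fun z => g z - δ) κ z w - C * aK (fun _ => 1) κt z w)
      * (inner ℂ (φ z) (φ w)).re) = (∫ z in F, (g z - δ) * ‖conv κ φ z‖ ^ 2)
      - C * ∫ z in F, ‖conv κt φ z‖ ^ 2 := by
    have e1 : ∀ z, ∫ w : ℍ, (aK (fun z => g z - δ) κ z w - C * aK (fun _ => 1) κt z w)
        * (inner ℂ (φ z) (φ w)).re
        = (∫ w : ℍ, aK (fun z => g z - δ) κ z w * (inner ℂ (φ z) (φ w)).re)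
        - C * ∫ w : ℍ, aK (fun _ => 1) κt z w * (inner ℂ (φ z) (φ w)).re := by
      intro z
      rw [← integral_const_mul, ← integral_sub (k1 z) ((k3 z).const_mul C)]
      congr 1
      funext w
      ring
    simp only [e1]
    rw [integral_sub (FI1_int hF k2) ((FI1_int hF k4).const_mul C), integral_const_mul,
      r1 (V n) (ρ n) φ hφc heq, r2 (V n) (ρ n) φ hφc heq]
    simp only [one_mul]
  rw [hsplit] at hn'
  -- `conv κt φ = (μ - μ₀) conv κ φ`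
  have hconv : ∀ z, conv κt φ z = (μ - μ₀) • conv κ φ z := by
    intro z
    have e1 : conv κt φ z = (1 : ℝ) • conv (LL κ) φ z + (-μ₀) • conv κ φ z :=
      v3 (LL κ) κ φ 1 (-μ₀) z (l4 κ hκ) hκ hφc
    have e2 : conv (LL κ) φ z = μ • conv κ φ z := by
      rw [← com (V n) κ φ hκ hφ z]
      have e3 : lap φ = fun z => μ • φ z := funext hlap
      rw [e3]
      unfold conv
      rw [← integral_smul]
      congr 1
      funext w
      rw [smul_comm]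
    rw [e1, e2, one_smul, ← add_smul, ← sub_eq_add_neg]
  have hn2 : ∫ z in F, ‖conv κt φ z‖ ^ 2 = (μ - μ₀) ^ 2 * ∫ z in F, ‖conv κ φ z‖ ^ 2 := by
    rw [← integral_const_mul]
    congr 1
    funext z
    rw [hconv z, norm_smul, mul_pow, Real.norm_eq_abs, sq_abs]
  rw [hn2] at hn'
  have cφ : Continuous fun z => ‖φ z‖ ^ 2 := hφc.norm.pow 2
  have cQ : Continuous fun z => ‖conv κ φ z‖ ^ 2 := hQc.norm.pow 2
  have cD : Continuous fun z => ‖conv κ φ z - φ z‖ ^ 2 := (hQc.sub hφc).norm.pow 2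
  have cgQ : Continuous fun z => g z * ‖conv κ φ z‖ ^ 2 := hg.1.mul cQ
  have cgφ : Continuous fun z => g z * ‖φ z‖ ^ 2 := hg.1.mul cφ
  have e6 : ∫ z in F, (g z - δ) * ‖conv κ φ z‖ ^ 2
      = (∫ z in F, g z * ‖conv κ φ z‖ ^ 2) - δ * ∫ z in F, ‖conv κ φ z‖ ^ 2 := by
    have h := FI1_lin hF cgQ cQ 1 (-δ)
    have h' : (∫ z in F, (g z - δ) * ‖conv κ φ z‖ ^ 2)
        = ∫ z in F, (1 * (g z * ‖conv κ φ z‖ ^ 2) + (-δ) * ‖conv κ φ z‖ ^ 2) := by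
      congr 1
      funext z
      ring
    rw [h', h]
    ring
  rw [e6] at hn'
  have hA0 : 0 ≤ ∫ z in F, ‖φ z‖ ^ 2 := integral_nonneg fun z => sq_nonneg _
  have hQ0 : 0 ≤ ∫ z in F, ‖conv κ φ z‖ ^ 2 := integral_nonneg fun z => sq_nonneg _
  have hm0 : 0 ≤ m := (abs_nonneg _).trans (hm UpperHalfPlane.I)
  -- EIG
  have hB : ∫ z in F, ‖conv κ φ z - φ z‖ ^ 2 ≤ δ ^ 2 * ∫ z in F, ‖φ z‖ ^ 2 := by
    have h := eig Γ F fam (V n) (ρ n) φ μ η hΓ hF hfam hη hφ heq hlap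
    refine h.trans (mul_le_mul_of_nonneg_right ?_ hA0)
    apply pow_le_pow_left₀ (by positivity)
    refine le_trans ?_ hbη
    have := mul_le_mul_of_nonneg_right hμb hη.le
    linarith
  -- integrals of the pointwise inequalities
  have hδ1 : 0 < 1 + 1 / δ := by positivity
  have e7 : ∫ z in F, ‖conv κ φ z‖ ^ 2 ≤ (1 + δ) * (∫ z in F, ‖φ z‖ ^ 2)
      + (1 + 1 / δ) * ∫ z in F, ‖conv κ φ z - φ z‖ ^ 2 := by
    rw [← FI1_lin hF cφ cD (1 + δ) (1 + 1 / δ)]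
    apply integral_mono (FI1_int hF cQ)
      (FI1_int hF ((continuous_const.mul cφ).add (continuous_const.mul cD)))
    intro z
    exact (FI1_pt (φ z) (conv κ φ z) (g z) m δ hδ (hm z)).1
  have e8 : ∫ z in F, g z * ‖φ z‖ ^ 2 ≤ (∫ z in F, g z * ‖conv κ φ z‖ ^ 2)
      + m * (δ * (∫ z in F, ‖φ z‖ ^ 2) + (1 + 1 / δ) * ∫ z in F, ‖conv κ φ z - φ z‖ ^ 2) := by
    have cPD : Continuous fun z => δ * ‖φ z‖ ^ 2 + (1 + 1 / δ) * ‖conv κ φ z - φ z‖ ^ 2 :=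
      (continuous_const.mul cφ).add (continuous_const.mul cD)
    have h := FI1_lin hF cgQ cPD 1 m
    rw [FI1_lin hF cφ cD δ (1 + 1 / δ), one_mul] at h
    rw [← h]
    apply integral_mono (FI1_int hF cgφ)
      (FI1_int hF ((continuous_const.mul cgQ).add (continuous_const.mul cPD)))
    intro z
    have h2 := (FI1_pt (φ z) (conv κ φ z) (g z) m δ hδ (hm z)).2
    show g z * ‖φ z‖ ^ 2 ≤ 1 * (g z * ‖conv κ φ z‖ ^ 2)
      + m * (δ * ‖φ z‖ ^ 2 + (1 + 1 / δ) * ‖conv κ φ z - φ z‖ ^ 2)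
    rw [one_mul]
    exact h2
  set A := ∫ z in F, ‖φ z‖ ^ 2
  set Q := ∫ z in F, ‖conv κ φ z‖ ^ 2
  set B := ∫ z in F, ‖conv κ φ z - φ z‖ ^ 2
  have h9 : (1 + 1 / δ) * B ≤ (δ ^ 2 + δ) * A := by
    have h := mul_le_mul_of_nonneg_left hB hδ1.le
    have h' : (1 + 1 / δ) * (δ ^ 2 * A) = (δ ^ 2 + δ) * A := by
      field_simp
    rw [h'] at h
    exact h
  have h10 : Q ≤ (1 + δ) ^ 2 * A := by nlinarith
  have h11 : C * ((μ - μ₀) ^ 2 * Q) ≤ δ * Q := by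
    have h12 : (μ - μ₀) ^ 2 ≤ τ ^ 2 := by
      rw [← sq_abs (μ - μ₀)]
      exact pow_le_pow_left₀ (abs_nonneg _) hμ 2
    have h13 : C * (μ - μ₀) ^ 2 ≤ δ := (mul_le_mul_of_nonneg_left h12 hC).trans hτ
    have := mul_le_mul_of_nonneg_right h13 hQ0
    nlinarith
  have h14 : m * (δ * A + (1 + 1 / δ) * B) ≤ m * ((2 * δ + δ ^ 2) * A) := by
    apply mul_le_mul_of_nonneg_left _ hm0
    nlinarith
  have h15 : 2 * δ * Q ≤ 2 * δ * ((1 + δ) ^ 2 * A) :=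
    mul_le_mul_of_nonneg_left h10 (by positivity)
  nlinarith

/-- the one-sided estimate for functions of mean zero -/
theorem FI1_side (ca1 : CA1_stmt) (ca2 : CA2_stmt) (lak : LAK_stmt) (cvb : CVB_stmt)
    (com : COM_stmt) (ker : KER_stmt) (trf : TRF_stmt) (eig : EIG_stmt) (kli : KLI_stmt)
    (kfm : KFM_stmt) (bdd : BDD_stmt)
    {Γ : Subgroup SL(2, ℝ)} {F : Set ℍ} (hΓ : SurfaceGroup Γ) (hF : NiceDom Γ F)
    (V : ℕ → Type) [∀ n, NormedAddCommGroup (V n)] [∀ n, InnerProductSpace ℂ (V n)]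
    [∀ n, CompleteSpace (V n)] (ρ : ∀ n, Γ →* (V n ≃ₗᵢ[ℂ] V n)) (hst : Strong V ρ) {g : ℍ → ℝ}
    (hg : Inv Γ g) (hg0 : (∫ z in F, g z) = 0) (b ε : ℝ) (hε : 0 < ε) :
    ∀ᶠ n in atTop, ∀ (μ : ℝ) (φ : ℍ → V n), 0 ≤ μ → μ ≤ b → CD 2 φ →
      (∀ (γ : Γ) (z : ℍ), φ (γ • z) = ρ n γ (φ z)) → (∀ z, lap φ z = μ • φ z) →
      (∫ z in F, g z * ‖φ z‖ ^ 2) ≤ ε * ∫ z in F, ‖φ z‖ ^ 2 := by
  obtain ⟨⟨m, hm⟩, -⟩ := bdd Γ F g hΓ hF hg
  have hm0 : 0 ≤ m := (abs_nonneg _).trans (hm UpperHalfPlane.I)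
  have h93 : 0 < 9 + 3 * m := by positivity
  obtain ⟨δ, hδ, hδ1, hδε⟩ : ∃ δ : ℝ, 0 < δ ∧ δ ≤ 1 ∧ (9 + 3 * m) * δ ≤ ε := by
    refine ⟨min 1 (ε / (9 + 3 * m)), lt_min one_pos (by positivity), min_le_left _ _, ?_⟩
    have h := min_le_right 1 (ε / (9 + 3 * m))
    rw [le_div_iff₀ h93] at h
    linarith
  obtain ⟨C, hC, hk⟩ := kli Γ F g hΓ hF hg hg0 b δ hδ
  obtain ⟨fam, hfam⟩ := kfm
  obtain ⟨η, hη, hbη⟩ : ∃ η : ℝ, 0 < η ∧ b * η / 2 ≤ δ := by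
    have hb : 0 < |b| + 1 := by positivity
    refine ⟨2 * δ / (|b| + 1), by positivity, ?_⟩
    have e : b * (2 * δ / (|b| + 1)) / 2 = b * δ / (|b| + 1) := by
      field_simp
    rw [e, div_le_iff₀ hb]
    have := le_abs_self b
    nlinarith
  obtain ⟨τ, hτ, hCτ⟩ : ∃ τ : ℝ, 0 < τ ∧ C * τ ^ 2 ≤ δ := by
    have hC1 : 0 < C + 1 := by positivity
    refine ⟨min 1 (δ / (C + 1)), lt_min one_pos (by positivity), ?_⟩
    have h := min_le_right 1 (δ / (C + 1))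
    rw [le_div_iff₀ hC1] at h
    have h1 := min_le_left 1 (δ / (C + 1))
    have h0 : 0 < min 1 (δ / (C + 1)) := lt_min one_pos (by positivity)
    set t := min 1 (δ / (C + 1))
    have h2 : t ^ 2 ≤ t := by nlinarith
    have h3 : C * t ^ 2 ≤ C * t := mul_le_mul_of_nonneg_left h2 hC
    nlinarith
  set N := ⌈b / τ⌉₊ with hN
  have hall : ∀ᶠ n in atTop, ∀ k ∈ Finset.range (N + 1), (k : ℝ) * τ ≤ b →
      ∀ (μ : ℝ) (φ : ℍ → V n), |μ - k * τ| ≤ τ → 0 ≤ μ → μ ≤ b → CD 2 φ →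
      (∀ (γ : Γ) (z : ℍ), φ (γ • z) = ρ n γ (φ z)) → (∀ z, lap φ z = μ • φ z) →
      (∫ z in F, g z * ‖φ z‖ ^ 2) ≤
        (2 * δ * (1 + δ) ^ 2 + δ + m * (2 * δ + δ ^ 2)) * ∫ z in F, ‖φ z‖ ^ 2 := by
    rw [Filter.eventually_all_finset]
    intro k _
    by_cases hkb : (k : ℝ) * τ ≤ b
    · have h := FI1_loc ca1 ca2 lak cvb com ker trf eig hΓ hF V ρ hst hg m hm b δ C (k * τ) η τ hδ hC
        fam hfam hη hbη hCτ (fun u hu hs => hk (k * τ) u (by positivity) hkb hu hs)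
      filter_upwards [h] with n hn _
      exact hn
    · exact Filter.Eventually.of_forall fun n h => absurd h hkb
  filter_upwards [hall] with n hn μ φ hμ0 hμb hφ heq hlap
  have hμτ : 0 ≤ μ / τ := by positivity
  have hf1 : (⌊μ / τ⌋₊ : ℝ) * τ ≤ μ := by
    have := Nat.floor_le hμτ
    rwa [le_div_iff₀ hτ] at this
  have hf2 : μ < (⌊μ / τ⌋₊ + 1 : ℝ) * τ := by
    have := Nat.lt_floor_add_one (μ / τ)
    rwa [div_lt_iff₀ hτ] at this
  have hkN : ⌊μ / τ⌋₊ ∈ Finset.range (N + 1) := by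
    rw [Finset.mem_range]
    have h1 : ⌊μ / τ⌋₊ ≤ N := by
      apply Nat.floor_le_of_le
      refine le_trans ?_ (Nat.le_ceil (b / τ))
      gcongr
    omega
  have habs : |μ - ⌊μ / τ⌋₊ * τ| ≤ τ := by
    rw [abs_le]
    constructor <;> nlinarith
  refine (hn _ hkN (hf1.trans hμb) μ φ habs hμ0 hμb hφ heq hlap).trans ?_
  apply mul_le_mul_of_nonneg_right _ (integral_nonneg fun z => sq_nonneg _)
  have h2 : 2 * δ * (1 + δ) ^ 2 + δ + m * (2 * δ + δ ^ 2) ≤ (9 + 3 * m) * δ := by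
    have h3 : δ ^ 2 ≤ δ := by nlinarith
    have h4 : (1 + δ) ^ 2 ≤ 4 := by nlinarith
    have h5 : 2 * δ * (1 + δ) ^ 2 ≤ 2 * δ * 4 := mul_le_mul_of_nonneg_left h4 (by positivity)
    have h6 : m * (2 * δ + δ ^ 2) ≤ m * (3 * δ) :=
      mul_le_mul_of_nonneg_left (by linarith) hm0
    linarith
  exact h2.trans hδε

theorem FI1 (h1 : TTT_stmt) (h2 : CA1_stmt) (h3 : CA2_stmt) (h4 : LAK_stmt) (h5 : CVS_stmt)
    (h6 : CVB_stmt) (h7 : EQV_stmt) (h8 : COM_stmt) (h9 : KFM_stmt) (h10 : DOM_stmt)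
    (h11 : DOB_stmt) (h12 : BDD_stmt) (h13 : KLI_stmt) (h14 : TRF_stmt) (h15 : KER_stmt)
    (h16 : EIG_stmt) : FI1_stmt := by
  intro Γ hΓ V _ _ _ ρ hst F h hF hc hinv b ε hε
  have _ := h1
  have _ := h5
  have _ := h7
  obtain ⟨F₀, hF₀⟩ := h10 Γ hΓ
  obtain ⟨-, -, vpos, vfin, hF', -⟩ := h11 Γ F₀ hΓ hF₀
  obtain ⟨hv, hint⟩ := hF' F hF
  have hvol : 0 < (volume F₀).toReal := ENNReal.toReal_pos vpos.ne' vfin.ne
  set c := (∫ z in F₀, h z) / (volume F₀).toReal with hcdef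
  have hg1 : Inv Γ (fun z => h z - c) := by
    refine ⟨hc.sub continuous_const, fun γ z => ?_⟩
    simp only
    rw [hinv]
  have hg2 : Inv Γ (fun z => c - h z) := by
    refine ⟨continuous_const.sub hc, fun γ z => ?_⟩
    simp only
    rw [hinv]
  have hone : ∫ z in F₀, (fun _ : ℍ => (1 : ℝ)) z = (volume F₀).toReal := by
    simp [Measure.real]
  have hz1 : ∫ z in F₀, (h z - c) = 0 := by
    have e := FI1_lin hF₀ hc (continuous_const (y := (1 : ℝ))) 1 (-c)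
    rw [hone] at e
    have e2 : ∫ z in F₀, (h z - c) = ∫ z in F₀, (1 * h z + -c * 1) := by
      congr 1
      funext z
      ring
    rw [e2, e, hcdef]
    field_simp
    ring
  have hz2 : ∫ z in F₀, (c - h z) = 0 := by
    have e2 : ∫ z in F₀, (c - h z) = ∫ z in F₀, -(h z - c) := by
      congr 1
      funext z
      ring
    rw [e2, integral_neg, hz1, neg_zero]
  have s1 := FI1_side h2 h3 h4 h6 h8 h15 h14 h16 h13 h9 h12 hΓ hF₀ V ρ hst hg1 hz1 b ε hε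
  have s2 := FI1_side h2 h3 h4 h6 h8 h15 h14 h16 h13 h9 h12 hΓ hF₀ V ρ hst hg2 hz2 b ε hε
  filter_upwards [s1, s2] with n t1 t2 μ φ hμ0 hμb hφ heq hlap
  obtain ⟨c0, c1, -⟩ := h2 (V n)
  have hφ2 : CD 2 φ := c1 φ 2 ∞ (WithTop.coe_le_coe.2 (le_top : (2 : ℕ∞) ≤ ⊤)) hφ
  have hφc : Continuous φ := (c0 φ).1 (c1 φ 0 2 (by norm_num) hφ2)
  have cφ : Continuous fun z => ‖φ z‖ ^ 2 := hφc.norm.pow 2
  have cgφ : Continuous fun z => h z * ‖φ z‖ ^ 2 := hc.mul cφ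
  have hnorm : ∀ (γ : Γ) z, ‖φ (γ • z)‖ = ‖φ z‖ := by
    intro γ z
    rw [heq γ z]
    exact (ρ n γ).norm_map _
  have i1 := hint (fun z => h z * ‖φ z‖ ^ 2) (fun γ z => by rw [hnorm, hinv])
  have i2 := hint (fun z => ‖φ z‖ ^ 2) (fun γ z => by rw [hnorm])
  have i3 := hint h hinv
  rw [i1, i2, i3, hv, ← hcdef]
  have t1' := t1 μ φ hμ0 hμb hφ2 heq hlap
  have t2' := t2 μ φ hμ0 hμb hφ2 heq hlap
  have e1 : ∫ z in F₀, (h z - c) * ‖φ z‖ ^ 2
      = (∫ z in F₀, h z * ‖φ z‖ ^ 2) - c * ∫ z in F₀, ‖φ z‖ ^ 2 := by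
    have e := FI1_lin hF₀ cgφ cφ 1 (-c)
    have e2 : ∫ z in F₀, (h z - c) * ‖φ z‖ ^ 2
        = ∫ z in F₀, (1 * (h z * ‖φ z‖ ^ 2) + -c * ‖φ z‖ ^ 2) := by
      congr 1
      funext z
      ring
    rw [e2, e]
    ring
  have e2 : ∫ z in F₀, (c - h z) * ‖φ z‖ ^ 2
      = -((∫ z in F₀, h z * ‖φ z‖ ^ 2) - c * ∫ z in F₀, ‖φ z‖ ^ 2) := by
    rw [← e1, ← integral_neg]
    congr 1
    funext z
    ring
  rw [e1] at t1'
  rw [e2] at t2'
  rw [abs_le]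
  constructor <;> linarith

end Pool.Agent.QU
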